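import Mathlib

/-!
# The conjecture of Beneš for powers of 2-stage graphs fails, and no function repairs it

For every `c` there is a simple regular ordered 2-stage graph `L` such that `L ^ 2` is externally
connected but none of `L ^ 1, ..., L ^ c` is rearrangeable. With `c = 4` this refutes the
conjecture (`m = 2`).

The graph: the vertices of a class are `r` vertices of type `Y` and `r + 1` vertices of type `X`;
every `X` is joined to every `Y` and every `Y` to every `X`, and every `X` to its own copy.
-/

set_option autoImplicit false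

namespace Pool.Agent.Results.MP_dc8297_co.BenesUnbounded

/-- An ordered 2-stage graph without multiple edges whose two classes have `N` vertices each. The
linear orders identify each class with `Fin N`, and `L s t` says that the source `s` and the
target `t` are joined by an edge. -/
abbrev TwoStage (N : ℕ) : Type := Fin N → Fin N → Prop

/-- All vertices of `L` have degree `k`. -/
def Regular {N : ℕ} (k : ℕ) (L : TwoStage N) : Prop :=
  (∀ s, {t | L s t}.ncard = k) ∧ ∀ t, {s | L s t}.ncard = k

/-- `p` is a plain path of the `(n+1)`-stage graph `L ^ n`: it meets each of the `n + 1` classes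
exactly once, its vertex in class number `i` is `p i`, and consecutive vertices are joined by an
edge of the corresponding copy of `L`. -/
def PlainPath {N : ℕ} (L : TwoStage N) (n : ℕ) (p : Fin (n + 1) → Fin N) : Prop :=
  ∀ i : Fin n, L (p i.castSucc) (p i.succ)

/-- `L ^ n` is externally connected: every source and every target are joined by a plain path. -/
def ExternallyConnected {N : ℕ} (L : TwoStage N) (n : ℕ) : Prop :=
  ∀ s t : Fin N, ∃ p : Fin (n + 1) → Fin N, PlainPath L n p ∧ p 0 = s ∧ p (Fin.last n) = t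

/-- Two plain paths of `L ^ n` have a common edge. -/
def ShareEdge {N n : ℕ} (p q : Fin (n + 1) → Fin N) : Prop :=
  ∃ i : Fin n, p i.castSucc = q i.castSucc ∧ p i.succ = q i.succ

/-- The 2-stage multigraph in which `s` and `t` are joined by `M s t` edges is a mask of `L ^ n`
(for `n ≥ 1`): every vertex has the same degree as in `L ^ n`. -/
def IsMask {N : ℕ} (L : TwoStage N) (M : Fin N → Fin N → ℕ) : Prop :=
  (∀ s, ∑ t, M s t = {t | L s t}.ncard) ∧ ∀ t, ∑ s, M s t = {s | L s t}.ncard

/-- The edges of the multigraph `M`. -/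
abbrev Edges {N : ℕ} (M : Fin N → Fin N → ℕ) : Type := Σ st : Fin N × Fin N, Fin (M st.1 st.2)

/-- `L ^ n` is rearrangeable: for every mask there are pairwise edge-disjoint plain paths, one for
each edge of the mask, the path of an edge `st` joining `s` to `t`. -/
def Rearrangeable {N : ℕ} (L : TwoStage N) (n : ℕ) : Prop :=
  ∀ M : Fin N → Fin N → ℕ, IsMask L M → ∃ P : Edges M → Fin (n + 1) → Fin N,
    (∀ e, PlainPath L n (P e) ∧ P e 0 = e.1.1 ∧ P e (Fin.last n) = e.1.2) ∧
      ∀ e e', e ≠ e' → ¬ ShareEdge (P e) (P e')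

/-! ### The graph -/

/-- The graph: the vertices smaller than `r` have type `Y`, the others type `X`. -/
def G (r : ℕ) : TwoStage (2 * r + 1) := fun u v =>
  (u.1 < r ∧ r ≤ v.1) ∨ (r ≤ u.1 ∧ v.1 < r) ∨ (r ≤ u.1 ∧ v = u)

theorem G_symm {r : ℕ} (u v : Fin (2 * r + 1)) : G r u v ↔ G r v u := by
  unfold G
  constructor
  · rintro (⟨h1, h2⟩ | ⟨h1, h2⟩ | ⟨h1, h2⟩)
    · exact Or.inr (Or.inl ⟨h2, h1⟩)
    · exact Or.inl ⟨h2, h1⟩
    · subst h2
      exact Or.inr (Or.inr ⟨h1, rfl⟩)
  · rintro (⟨h1, h2⟩ | ⟨h1, h2⟩ | ⟨h1, h2⟩)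
    · exact Or.inr (Or.inl ⟨h2, h1⟩)
    · exact Or.inl ⟨h2, h1⟩
    · subst h2
      exact Or.inr (Or.inr ⟨h1, rfl⟩)

theorem card_lt (r : ℕ) : (Finset.univ.filter fun v : Fin (2 * r + 1) => v.1 < r).card = r := by
  have h : (Finset.univ.filter fun v : Fin (2 * r + 1) => v.1 < r) =
      Finset.Iio (⟨r, by omega⟩ : Fin (2 * r + 1)) := by
    ext v
    simp [Fin.lt_def]
  rw [h, Fin.card_Iio]

theorem card_ge (r : ℕ) :
    (Finset.univ.filter fun v : Fin (2 * r + 1) => r ≤ v.1).card = r + 1 := by
  have h : (Finset.univ.filter fun v : Fin (2 * r + 1) => r ≤ v.1) =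
      Finset.Ici (⟨r, by omega⟩ : Fin (2 * r + 1)) := by
    ext v
    simp [Fin.le_def]
  rw [h, Fin.card_Ici]
  simp only
  omega

theorem G_deg (r : ℕ) (s : Fin (2 * r + 1)) : {t | G r s t}.ncard = r + 1 := by
  classical
  by_cases hs : s.1 < r
  · have h : {t | G r s t} = ((Finset.univ.filter fun v : Fin (2 * r + 1) => r ≤ v.1) :
        Set (Fin (2 * r + 1))) := by
      ext v
      simp only [G, Set.mem_ofPred_eq, Finset.coe_filter, Finset.mem_univ, true_and]
      constructor
      · rintro (⟨_, h2⟩ | ⟨h1, _⟩ | ⟨h1, _⟩)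
        · exact h2
        · omega
        · omega
      · exact fun h => Or.inl ⟨hs, h⟩
    rw [h, Set.ncard_coe_finset, card_ge]
  · push Not at hs
    have h : {t | G r s t} =
        ((insert s (Finset.univ.filter fun v : Fin (2 * r + 1) => v.1 < r) :
          Finset (Fin (2 * r + 1))) : Set (Fin (2 * r + 1))) := by
      ext v
      simp only [G, Set.mem_ofPred_eq, Finset.coe_insert, Finset.coe_filter, Finset.mem_univ,
        true_and, Set.mem_insert_iff]
      constructor
      · rintro (⟨h1, _⟩ | ⟨_, h2⟩ | ⟨_, h2⟩)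
        · omega
        · exact Or.inr h2
        · exact Or.inl h2
      · rintro (h | h)
        · exact Or.inr (Or.inr ⟨hs, h⟩)
        · exact Or.inr (Or.inl ⟨hs, h⟩)
    rw [h, Set.ncard_coe_finset, Finset.card_insert_of_notMem, card_lt]
    simp only [Finset.mem_filter, Finset.mem_univ, true_and]
    omega

theorem G_regular (r : ℕ) : Regular (r + 1) (G r) := by
  refine ⟨G_deg r, fun t => ?_⟩
  have h : {s | G r s t} = {s | G r t s} := by
    ext s
    exact G_symm s t
  rw [h]
  exact G_deg r t

theorem G_connected {r : ℕ} (hr : 1 ≤ r) : ExternallyConnected (G r) 2 := by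
  intro s t
  have key : ∃ w, G r s w ∧ G r w t := by
    by_cases hs : s.1 < r <;> by_cases ht : t.1 < r
    · exact ⟨⟨r, by omega⟩, Or.inl ⟨hs, le_rfl⟩, Or.inr (Or.inl ⟨le_rfl, ht⟩)⟩
    · exact ⟨t, Or.inl ⟨hs, by omega⟩, Or.inr (Or.inr ⟨by omega, rfl⟩)⟩
    · exact ⟨s, Or.inr (Or.inr ⟨by omega, rfl⟩), Or.inr (Or.inl ⟨by omega, ht⟩)⟩
    · exact ⟨⟨0, by omega⟩, Or.inr (Or.inl ⟨by omega, hr⟩), Or.inl ⟨hr, by omega⟩⟩
  obtain ⟨w, h1, h2⟩ := key
  refine ⟨![s, w, t], ?_, rfl, rfl⟩
  intro i
  fin_cases i
  · exact h1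
  · exact h2

/-! ### The masks -/

/-- the mask given by a permutation, all its edges having the same multiplicity -/
def permMask {N : ℕ} (k : ℕ) (τ : Equiv.Perm (Fin N)) : Fin N → Fin N → ℕ :=
  fun s t => if τ s = t then k else 0

theorem permMask_isMask {N k : ℕ} {L : TwoStage N} (hL : Regular k L) (τ : Equiv.Perm (Fin N)) :
    IsMask L (permMask k τ) := by
  constructor
  · intro s
    rw [hL.1 s]
    simp [permMask]
  · intro t
    rw [hL.2 t]
    unfold permMask
    rw [Finset.sum_eq_single (τ.symm t)]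
    · simp
    · intro b _ hb
      rw [if_neg]
      intro h
      exact hb (by rw [← h, Equiv.symm_apply_apply])
    · intro h
      exact absurd (Finset.mem_univ _) h

/-- the exchange of `v` and `v + r`, for `v < r` -/
def flipFun (r : ℕ) (v : Fin (2 * r + 1)) : Fin (2 * r + 1) :=
  if h : v.1 < r then ⟨v.1 + r, by omega⟩ else if v.1 < 2 * r then ⟨v.1 - r, by omega⟩ else v

theorem flipFun_invol (r : ℕ) : Function.Involutive (flipFun r) := by
  intro v
  apply Fin.ext
  unfold flipFun
  by_cases h1 : v.1 < r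
  · rw [dif_pos h1, dif_neg (by simp), if_pos (by simp only; omega)]
    simp
  · by_cases h2 : v.1 < 2 * r
    · rw [dif_neg h1, if_pos h2, dif_pos (by simp only; omega)]
      simp only
      omega
    · rw [dif_neg h1, if_neg h2, dif_neg h1, if_neg h2]

/-- the permutation which is used for `L ^ n` -/
def perm (r n : ℕ) : Equiv.Perm (Fin (2 * r + 1)) :=
  if n % 2 = 1 then Equiv.refl _ else (flipFun_invol r).toPerm

theorem perm_spec {r n : ℕ} {v : Fin (2 * r + 1)} (hv : v.1 < r) :
    (n % 2 = 1 → (perm r n v).1 < r) ∧ (n % 2 = 0 → r ≤ (perm r n v).1) := by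
  unfold perm
  constructor
  · intro h
    rw [if_pos h]
    exact hv
  · intro h
    rw [if_neg (by omega)]
    change r ≤ (flipFun r v).1
    unfold flipFun
    rw [dif_pos hv]
    simp

/-- A plain path from a vertex of type `Y` with the wrong parity at its end uses a loop. -/
theorem exists_loop {r n : ℕ} {p : Fin (n + 1) → Fin (2 * r + 1)} (hp : PlainPath (G r) n p)
    (h0 : (p 0).1 < r) (h1 : n % 2 = 1 → (p (Fin.last n)).1 < r)
    (h2 : n % 2 = 0 → r ≤ (p (Fin.last n)).1) :
    ∃ i : Fin n, 1 ≤ i.1 ∧ r ≤ (p i.castSucc).1 ∧ p i.succ = p i.castSucc := by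
  by_contra hcon
  push Not at hcon
  have key : ∀ (i : ℕ) (hi : i < n + 1), (r ≤ (p ⟨i, hi⟩).1 ↔ i % 2 = 1) := by
    intro i
    induction i with
    | zero =>
      intro hi
      have : (p ⟨0, hi⟩).1 < r := h0
      constructor
      · intro h
        omega
      · intro h
        omega
    | succ i ih =>
      intro hi
      have ih' := ih (by omega)
      have hstep := hp ⟨i, by omega⟩
      change G r (p ⟨i, by omega⟩) (p ⟨i + 1, by omega⟩) at hstep
      rcases hstep with ⟨a1, a2⟩ | ⟨a1, a2⟩ | ⟨a1, a2⟩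
      · constructor
        · intro _
          by_contra hne
          have : i % 2 = 1 := by omega
          have := ih'.2 this
          omega
        · intro _
          exact a2
      · have := ih'.1 a1
        constructor
        · intro h
          omega
        · intro h
          omega
      · exfalso
        have hodd := ih'.1 a1
        exact hcon ⟨i, by omega⟩ (by simp only; omega) a1 a2
  have hl := key n (by omega)
  change r ≤ (p (Fin.last n)).1 ↔ n % 2 = 1 at hl
  rcases Nat.mod_two_eq_zero_or_one n with h | h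
  · have := hl.1 (h2 h)
    omega
  · have := hl.2 h
    have := h1 h
    omega

theorem card_pos (n : ℕ) : (Finset.univ.filter fun i : Fin n => 1 ≤ i.1).card = n - 1 := by
  rcases Nat.eq_zero_or_pos n with h | h
  · subst h
    rfl
  · obtain ⟨m, rfl⟩ : ∃ m, n = m + 1 := ⟨n - 1, by omega⟩
    have h2 : (Finset.univ.filter fun i : Fin (m + 1) => 1 ≤ i.1) = Finset.univ.erase 0 := by
      ext i
      simp only [Finset.mem_filter, Finset.mem_univ, true_and, Finset.mem_erase, and_true, ne_eq,
        Fin.ext_iff, Fin.val_zero]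
      omega
    rw [h2, Finset.card_erase_of_mem (Finset.mem_univ _), Finset.card_univ, Fintype.card_fin]

/-- There are too few loops: `L ^ n` is not rearrangeable for `n ≤ r`. -/
theorem G_not_rearrangeable {r n : ℕ} (hn1 : 1 ≤ n) (hn : n ≤ r) : ¬ Rearrangeable (G r) n := by
  classical
  intro hR
  obtain ⟨P, hP, hdis⟩ := hR (permMask (r + 1) (perm r n))
    (permMask_isMask (G_regular r) (perm r n))
  -- the edges of the mask at the sources of type `Y`
  let src : Fin r → Fin (2 * r + 1) := fun y => ⟨y.1, by omega⟩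
  have hM : ∀ y, permMask (r + 1) (perm r n) (src y) (perm r n (src y)) = r + 1 := by
    intro y
    simp [permMask]
  let tok : Fin r × Fin (r + 1) → Edges (permMask (r + 1) (perm r n)) :=
    fun a => ⟨(src a.1, perm r n (src a.1)), Fin.cast (hM a.1).symm a.2⟩
  have htok : Function.Injective tok := by
    rintro ⟨y, j⟩ ⟨y', j'⟩ h
    have h1 : src y = src y' := congrArg (fun e => e.1.1) h
    have h1' : (src y).1 = (src y').1 := by rw [h1]
    have h2 : y = y' := Fin.ext h1'
    subst h2
    have h3 := eq_of_heq (Sigma.mk.inj h).2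
    have h4 : j = j' := Fin.ext (by simpa using congrArg Fin.val h3)
    rw [h4]
  have hex : ∀ a : Fin r × Fin (r + 1), ∃ i : Fin n, 1 ≤ i.1 ∧
      r ≤ (P (tok a) i.castSucc).1 ∧ P (tok a) i.succ = P (tok a) i.castSucc := by
    intro a
    obtain ⟨hp, hs, ht⟩ := hP (tok a)
    have hlt : (src a.1).1 < r := a.1.2
    apply exists_loop hp
    · rw [hs]
      exact hlt
    · intro h
      rw [ht]
      exact (perm_spec hlt).1 h
    · intro h
      rw [ht]
      exact (perm_spec hlt).2 h
  choose f hf1 hf2 hf3 using hex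
  let Φ : Fin r × Fin (r + 1) → Fin n × Fin (2 * r + 1) :=
    fun a => (f a, P (tok a) (f a).castSucc)
  have hΦ : Function.Injective Φ := by
    intro a b hab
    have h1 : f a = f b := congrArg Prod.fst hab
    have h2 : P (tok a) (f a).castSucc = P (tok b) (f b).castSucc := congrArg Prod.snd hab
    by_contra hne
    apply hdis (tok a) (tok b) (fun h => hne (htok h))
    refine ⟨f a, ?_, ?_⟩
    · rw [h2, h1]
    · rw [hf3 a, h2, ← hf3 b, h1]
  have hcard := Finset.card_le_card_of_injOn (s := (Finset.univ : Finset (Fin r × Fin (r + 1))))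
    (t := (Finset.univ.filter fun i : Fin n => 1 ≤ i.1) ×ˢ
      (Finset.univ.filter fun v : Fin (2 * r + 1) => r ≤ v.1)) Φ
    (by
      intro a _
      simp only [Finset.coe_product, Finset.coe_filter, Finset.mem_univ, true_and, Set.mem_prod,
        Set.mem_ofPred_eq]
      exact ⟨hf1 a, hf2 a⟩) hΦ.injOn
  rw [Finset.card_product, card_pos, card_ge, Finset.card_univ, Fintype.card_prod,
    Fintype.card_fin, Fintype.card_fin] at hcard
  have h3 : r ≤ n - 1 := Nat.le_of_mul_le_mul_right hcard (by omega)
  omega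

/-- For every `c` there is a simple regular ordered 2-stage graph `L` for which `L ^ 2` is
externally connected and `L ^ n` is not rearrangeable for any `n` with `1 ≤ n ≤ c`. -/
theorem result : ∀ c : ℕ, ∃ (N k : ℕ) (L : TwoStage N), 1 ≤ k ∧ Regular k L ∧
    ExternallyConnected L 2 ∧ ∀ n : ℕ, 1 ≤ n → n ≤ c → ¬ Rearrangeable L n := by
  intro c
  exact ⟨2 * (c + 1) + 1, c + 2, G (c + 1), by omega, G_regular (c + 1),
    G_connected (by omega), fun n h1 h2 => G_not_rearrangeable h1 (by omega)⟩

end Pool.Agent.Results.MP_dc8297_co.BenesUnbounded
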